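import Mathlib

set_option autoImplicit false

namespace Pool.Agent.H.MP_3abc29_an
open AddCircle Polynomial InnerProductSpace ContinuousLinearMap Metric ComplexConjugate

noncomputable abbrev H := lp (fun _ : ℕ => ℂ) 2

lemma n2 (x : H) : HasSum (fun n => ‖x n‖ ^ 2) (‖x‖ ^ 2) := by
  simpa using lp.hasSum_norm (p := 2) (by norm_num) x

def shf (x : ℕ → ℂ) : ℕ → ℂ
  | 0 => 0
  | n + 1 => x n

noncomputable def S0 : H →ₗᵢ[ℂ] H where
  toFun x := ⟨shf x, memℓp_gen (by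
    simpa using (summable_nat_add_iff (f := fun n => ‖shf x n‖ ^ 2) 1).1 (n2 x).summable)⟩
  map_add' x y := lp.ext (funext fun n => by
    change shf (x + y : H) n = shf x n + shf y n
    cases n
    · simp [shf]
    · rfl)
  map_smul' c x := lp.ext (funext fun n => by cases n <;> simp [shf])
  norm_map' x := by
    rw [← sq_eq_sq₀ (norm_nonneg _) (norm_nonneg _)]
    refine (n2 _).unique ((hasSum_nat_add_iff' 1).1 ?_)
    simpa [shf] using n2 x

noncomputable def S : H →L[ℂ] H := S0.toContinuousLinearMap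

noncomputable def A : H →L[ℂ] H := adjoint S

noncomputable def e (j : ℕ) : H := lp.single 2 j 1

lemma S_e (j : ℕ) : S (e j) = e (j + 1) := lp.ext (funext fun n => by
  change shf (e j) n = _
  cases n <;> simp [shf, e, Pi.single_apply])

lemma AS : A * S = 1 := by
  refine ContinuousLinearMap.ext fun x => ext_inner_left ℂ fun y => ?_
  rw [mul_apply_eq_comp, A, adjoint_inner_right]
  exact S0.inner_map_map y x

lemma A_e (j : ℕ) : A (e (j + 1)) = e j := by
  rw [← S_e]; exact congrArg (· (e j)) AS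

lemma A_e0 : A (e 0) = 0 := by
  refine ext_inner_left ℂ fun y => ?_
  rw [A, adjoint_inner_right, e, lp.inner_single_right]
  change ⟪shf y 0, (1 : ℂ)⟫_ℂ = _
  simp [shf]

lemma nS : ‖S‖ ≤ 1 := opNorm_le_bound _ zero_le_one fun x => by
  rw [one_mul]; exact (S0.norm_map x).le

lemma nA : ‖A‖ ≤ 1 := by rw [A, LinearIsometryEquiv.norm_map]; exact nS

noncomputable def T : H →L[ℂ] H := S + (1 / 10 : ℂ) • A

lemma T_e0 : T (e 0) = e 1 := by simp [T, S_e, A_e0]

lemma T_e (j : ℕ) : T (e (j + 1)) = e (j + 2) + (1 / 10 : ℂ) • e j := by simp [T, S_e, A_e]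

lemma notspec {w : ℂ} (hw : 1 < ‖w‖) : w + 1 / 10 / w ∉ spectrum ℂ T := by
  have w0 : w ≠ 0 := fun h => by rw [h, norm_zero] at hw; linarith
  have i1 : ‖w⁻¹‖ < 1 := by rw [norm_inv]; exact inv_lt_one_of_one_lt₀ hw
  have u1 : IsUnit (1 - w⁻¹ • S) := isUnit_one_sub_of_norm_lt_one (by
    rw [norm_smul]; nlinarith [nS, norm_nonneg w⁻¹, norm_nonneg S])
  have u2 : IsUnit (1 - (1 / 10 * w⁻¹) • A) := isUnit_one_sub_of_norm_lt_one (by
    rw [norm_smul, norm_mul]
    have : ‖(1 / 10 : ℂ)‖ = 1 / 10 := by simp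
    rw [this]; nlinarith [nA, norm_nonneg w⁻¹, norm_nonneg A])
  have u0 : IsUnit (algebraMap ℂ (H →L[ℂ] H) w) := (IsUnit.mk0 w w0).map _
  rw [spectrum.notMem_iff]
  have : algebraMap ℂ (H →L[ℂ] H) (w + 1 / 10 / w) - T =
      algebraMap ℂ (H →L[ℂ] H) w * ((1 - (1 / 10 * w⁻¹) • A) * (1 - w⁻¹ • S)) := by
    simp only [Algebra.algebraMap_eq_smul_one, smul_mul_assoc, one_mul, sub_mul, mul_sub, mul_one,
      mul_smul_comm, AS, T, smul_sub, smul_smul]
    match_scalars <;> field_simp <;> ring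
  rw [this]
  exact u0.mul (u2.mul u1)

noncomputable def r : ℂ[X] :=
  X - C (1 / 10) * (X ^ 3 - C (3 / 10) * X) + C (1 / 100) * (X ^ 5 - C (1 / 2) * X ^ 3 + C (1 / 20) * X)

lemma r_ev {w : ℂ} (w0 : w ≠ 0) : r.eval (w + 1 / 10 / w) =
    w * (1 + 1 / 10 * ((w ^ 2)⁻¹ - w ^ 2) + 1 / 100 * (w ^ 2) ^ 2) - 1 / 10000 * (w ^ 3)⁻¹ +
      1 / 10000000 * (w ^ 5)⁻¹ := by
  simp only [r, eval_add, eval_sub, eval_mul, eval_pow, eval_X, eval_C]
  field_simp
  ring

lemma circ {w : ℂ} (hw : ‖w‖ = 1) : ‖r.eval (w + 1 / 10 / w)‖ ≤ 1.0125 := by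
  have w0 : w ≠ 0 := fun h => by simp [h] at hw
  rw [r_ev w0]
  have hv : ‖w ^ 2‖ = 1 := by simp [hw]
  generalize w ^ 2 = v at hv
  have e1 : v⁻¹ = conj v := by rw [Complex.inv_def, Complex.normSq_eq_norm_sq, hv]; simp
  have h1 : ‖1 + 1 / 10 * (v⁻¹ - v) + 1 / 100 * v ^ 2‖ ≤ 1.012 := by
    rw [e1]
    refine abs_le_of_sq_le_sq' ?_ (by norm_num) |>.2
    have h := Complex.sq_norm v
    rw [hv, Complex.normSq_apply] at h
    rw [Complex.sq_norm, Complex.normSq_apply]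
    have a1 : (1 + 1 / 10 * (conj v - v) + 1 / 100 * v ^ 2).re = 1 + 1 / 100 * (v.re ^ 2 - v.im ^ 2) := by
      simp [pow_two]
    have a2 : (1 + 1 / 10 * (conj v - v) + 1 / 100 * v ^ 2).im = v.im * (-1 / 5 + 1 / 50 * v.re) := by
      simp [pow_two]; ring
    rw [a1, a2]
    have s : v.im ^ 2 = 1 - v.re ^ 2 := by linarith
    have e2 : v.im * (-1 / 5 + 1 / 50 * v.re) * (v.im * (-1 / 5 + 1 / 50 * v.re)) =
        v.im ^ 2 * (-1 / 5 + 1 / 50 * v.re) ^ 2 := by ring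
    rw [e2, s]
    have c1 : v.re ^ 2 ≤ 1 := by nlinarith [sq_nonneg v.im]
    obtain ⟨c2, c3⟩ := abs_le_of_sq_le_sq' (by linarith : v.re ^ 2 ≤ 1 ^ 2) zero_le_one
    generalize v.re = c at *
    nlinarith [mul_nonneg (sub_nonneg.2 c1) (sub_nonneg.2 c3), mul_nonneg (sub_nonneg.2 c1) (sub_nonneg.2 c2)]
  have h2 := norm_add_le (w * (1 + 1 / 10 * (v⁻¹ - v) + 1 / 100 * v ^ 2) - 1 / 10000 * (w ^ 3)⁻¹)
    (1 / 10000000 * (w ^ 5)⁻¹)
  have h3 := norm_sub_le (w * (1 + 1 / 10 * (v⁻¹ - v) + 1 / 100 * v ^ 2)) (1 / 10000 * (w ^ 3)⁻¹)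
  have h4 : ‖1 / 10000 * (w ^ 3)⁻¹‖ = 1 / 10000 := by simp [hw]
  have h5 : ‖1 / 10000000 * (w ^ 5)⁻¹‖ = 1 / 10000000 := by simp [hw]
  rw [norm_mul w, hw] at h3
  linarith

lemma ann {w : ℂ} (h1 : ‖w‖ ≤ 1) (h2 : 1 / 10 ≤ ‖w‖) : ‖r.eval (w + 1 / 10 / w)‖ ≤ 1.0125 := by
  let U : Set ℂ := closedBall 0 1 ∩ (ball 0 (1 / 10))ᶜ
  have cl : IsClosed U := isClosed_closedBall.inter isOpen_ball.isClosed_compl
  have d : DifferentiableOn ℂ (fun w : ℂ => r.eval (w + 1 / 10 / w)) U := fun z hz => by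
    have z0 : z ≠ 0 := fun h => hz.2 (by rw [h]; exact mem_ball_self (by norm_num))
    refine DifferentiableAt.differentiableWithinAt ?_
    exact (r.differentiableAt).comp z (f := fun w : ℂ => w + 1 / 10 / w) (by fun_prop (disch := assumption))
  refine Complex.norm_le_of_forall_mem_frontier_norm_le (U := U)
    (isBounded_closedBall.subset Set.inter_subset_left) ⟨d, by rw [cl.closure_eq]; exact d.continuousOn⟩
    (fun z hz => ?_) (subset_closure ⟨by simpa using h1, by simpa using h2⟩)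
  rcases frontier_inter_subset _ _ hz with h | h
  · have := h.1
    rw [frontier_closedBall _ one_ne_zero] at this
    exact circ (by simpa using this)
  · have := h.2
    rw [frontier_compl, frontier_ball _ (by norm_num)] at this
    have hz : ‖z‖ = 1 / 10 := by simpa using this
    have z0 : z ≠ 0 := fun h => by rw [h, norm_zero] at hz; norm_num at hz
    have := circ (w := 1 / 10 / z) (by rw [norm_div, hz]; norm_num)
    have e1 : 1 / 10 / z + 1 / 10 / (1 / 10 / z) = z + 1 / 10 / z := by field_simp; ring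
    rwa [e1] at this

lemma spec {z : ℂ} (hz : z ∈ spectrum ℂ T) : ‖r.eval z‖ ≤ 1.0125 := by
  obtain ⟨s, hs⟩ := IsAlgClosed.exists_eq_mul_self (z ^ 2 - 4 / 10)
  have key : (z + s) / 2 * ((z - s) / 2) = 1 / 10 := by linear_combination (1 / 4 : ℂ) * hs
  have w0 : (z + s) / 2 ≠ 0 := fun h => by rw [h] at key; norm_num at key
  have v0 : (z - s) / 2 ≠ 0 := fun h => by rw [h] at key; norm_num at key
  have e1 : (z + s) / 2 + 1 / 10 / ((z + s) / 2) = z := by
    rw [← key, mul_div_cancel_left₀ _ w0]; ring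
  have e2 : (z - s) / 2 + 1 / 10 / ((z - s) / 2) = z := by
    rw [← key, mul_div_cancel_right₀ _ v0]; ring
  have h1 : ‖(z + s) / 2‖ ≤ 1 := not_lt.1 fun h => notspec h (by rwa [e1])
  have h2 : ‖(z - s) / 2‖ ≤ 1 := not_lt.1 fun h => notspec h (by rwa [e2])
  have h3 := congrArg norm key
  rw [norm_mul] at h3
  have h4 : ‖(1 / 10 : ℂ)‖ = 1 / 10 := by simp
  have := ann h1 (by nlinarith [norm_nonneg ((z + s) / 2), norm_nonneg ((z - s) / 2)])
  rwa [e1] at this

lemma rT : aeval T r (e 0) = (101 / 100 : ℂ) • e 1 - (101 / 1000 : ℂ) • e 3 + (1 / 100 : ℂ) • e 5 := by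
  have t2 := T_e 0
  have t3 := T_e 1
  have t4 := T_e 2
  have t5 := T_e 3
  simp only [r, map_add, map_sub, map_mul, map_pow, aeval_X, aeval_C, Algebra.algebraMap_eq_smul_one,
    smul_mul_assoc, one_mul, pow_succ, pow_zero, add_apply, sub_apply, smul_apply,
    mul_apply_eq_comp, map_smul, T_e0, zero_add, Nat.reduceAdd, t2, t3, t4, t5] at *
  match_scalars <;> norm_num

lemma big : 1.0125 < ‖aeval T r‖ := by
  have h1 : ‖aeval T r (e 0)‖ ≤ ‖aeval T r‖ := by
    have := (aeval T r).le_opNorm (e 0)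
    have n : ‖e 0‖ = 1 := by rw [e, lp.norm_single (by norm_num)]; simp
    rwa [n, mul_one] at this
  refine lt_of_lt_of_le ?_ h1
  have h2 := sum_le_hasSum {1, 3} (fun _ _ => by positivity) (n2 (aeval T r (e 0)))
  rw [Finset.sum_pair (by norm_num)] at h2
  have a1 : aeval T r (e 0) 1 = 101 / 100 := by
    rw [rT]; change (101 / 100 : ℂ) * e 1 1 - (101 / 1000 : ℂ) * e 3 1 + (1 / 100 : ℂ) * e 5 1 = _
    simp [e]
  have a3 : aeval T r (e 0) 3 = -(101 / 1000) := by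
    rw [rT]; change (101 / 100 : ℂ) * e 1 3 - (101 / 1000 : ℂ) * e 3 3 + (1 / 100 : ℂ) * e 5 3 = _
    simp [e]
  rw [a1, a3] at h2
  have b1 : ‖(101 / 100 : ℂ)‖ = 101 / 100 := by simp
  have b3 : ‖(-(101 / 1000) : ℂ)‖ = 101 / 1000 := by simp
  rw [b1, b3] at h2
  nlinarith [norm_nonneg (aeval T r (e 0))]

lemma coef (n : ℤ) : fourierCoeff (fun t : AddCircle (1 : ℝ) => (fourier 1 t ^ 2 + 1 / 10) / fourier 1 t) n =
    (if n = 1 then 1 else 0) + 1 / 10 * (if n = -1 then 1 else 0) := by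
  have e1 : (fun t : AddCircle (1 : ℝ) => (fourier 1 t ^ 2 + 1 / 10) / fourier 1 t) =
      (fourier 1 : AddCircle (1 : ℝ) → ℂ) + fun t => 1 / 10 * fourier (-1) t := by
    funext t
    have h : fourier 1 t * fourier (-1) t = (1 : ℂ) := by rw [← fourier_add]; simp
    have h0 : fourier 1 t ≠ (0 : ℂ) := left_ne_zero_of_mul_eq_one h
    rw [Pi.add_apply, div_eq_iff h0]
    linear_combination (-1 / 10 : ℂ) * h
  have it : ∀ f : AddCircle (1 : ℝ) → ℂ, Continuous f → MeasureTheory.Integrable f haarAddCircle :=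
    fun f hf => hf.integrable_of_hasCompactSupport (HasCompactSupport.of_compactSpace f)
  rw [e1, fourierCoeff.add (it _ (by fun_prop)) (it _ (by fun_prop)), Pi.add_apply, fourierCoeff.const_mul,
    fourierCoeff_fourier, fourierCoeff_fourier]
  simp [Pi.single_apply]

lemma toep (i j : ℕ) : T (lp.single 2 j 1) i =
    (if (i : ℤ) - j = 1 then 1 else 0) + 1 / 10 * (if (i : ℤ) - j = -1 then 1 else 0) := by
  change T (e j) i = _
  cases j with
  | zero =>
    rw [T_e0]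
    have : ¬ ((i : ℤ) - (0 : ℕ) = -1) := by omega
    have h2 : ((i : ℤ) - (0 : ℕ) = 1) ↔ i = 1 := by omega
    simp [e, Pi.single_apply, this, h2]
  | succ j =>
    rw [T_e]
    have h1 : ((i : ℤ) - (j + 1 : ℕ) = -1) ↔ i = j := by omega
    have h2 : ((i : ℤ) - (j + 1 : ℕ) = 1) ↔ i = j + 2 := by omega
    simp only [h1, h2]
    change e (j + 2) i + (1 / 10 : ℂ) * e j i = _
    simp [e, Pi.single_apply]

end Pool.Agent.H.MP_3abc29_an
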